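import Pool.Agent.H71.KY.Pth

/-!
# Predictions: the surprise of one step, and the sum of the surprises of a path
-/

set_option autoImplicit false

namespace Pool.KY

open Finset Real
open Pool.Agent.H49.Ent Pool.Agent.H32.Dense Pool.STK Pool.KAF Pool.KAL

variable {Ω : Type} [Fintype Ω]

/-- The law of a class valued variable. -/
lemma law_cls {p : Ω → ℝ} (hp : ∀ ω, 0 ≤ p ω) {Z : Ω → Set Ω}
    (hZ : ∀ ω, 0 < p ω → ω ∈ Z ω)
    (hcl : ∀ ω ω', 0 < p ω → 0 < p ω' → ω' ∈ Z ω → Z ω' = Z ω) {ω : Ω} (h : 0 < p ω) :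
    law p Z (Z ω) = Pr p (Z ω) := by
  classical
  rw [Pr_eq]
  unfold law
  refine Finset.sum_congr rfl fun ω' _ => ?_
  rcases (hp ω').eq_or_lt with h0 | h0
  · rw [← h0, ite_self, ite_self]
  · by_cases h1 : ω' ∈ Z ω
    · rw [if_pos h1, if_pos (hcl ω ω' h h0 h1)]
    · rw [if_neg h1, if_neg (fun hh : Z ω' = Z ω => h1 (hh ▸ hZ ω' h0))]

/-- The surprise of a step is a conditional entropy. -/
theorem Sur_eq {p : Ω → ℝ} (hp : ∀ ω, 0 ≤ p ω) {S' Z Z' : Ω → Set Ω}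
    (hZ : ∀ ω, 0 < p ω → ω ∈ Z ω) (hZ' : ∀ ω, 0 < p ω → ω ∈ Z' ω)
    (hS' : ∀ ω, 0 < p ω → Z' ω ⊆ S' ω) (hsub : ∀ ω, 0 < p ω → Z' ω ⊆ Z ω)
    (hcl : ∀ ω ω', 0 < p ω → 0 < p ω' → ω' ∈ Z ω → Z ω' = Z ω)
    (hcl' : ∀ ω ω', 0 < p ω → 0 < p ω' → ω' ∈ Z' ω → Z' ω' = Z' ω ∧ S' ω' = S' ω)
    (hdj : ∀ ω ω', 0 < p ω → 0 < p ω' → ω' ∈ Z ω → S' ω' = S' ω ∨ Disjoint (S' ω') (S' ω)) :
    Sur p S' Z Z' = CH p Z' (fun ω => Z ω ∩ S' ω) := by
  have hS : ∀ ω, 0 < p ω → ω ∈ S' ω := fun ω h => hS' ω h (hZ' ω h)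
  have hD : ∀ ω ω', 0 < p ω → 0 < p ω' → ω' ∈ Z ω ∩ S' ω → Z ω' ∩ S' ω' = Z ω ∩ S' ω := by
    intro ω ω' h h' hω
    have h1 := hcl ω ω' h h' hω.1
    rcases hdj ω ω' h h' hω.1 with h2 | h2
    · rw [h1, h2]
    · exact absurd hω.2 (Set.disjoint_left.mp h2 (hS ω' h'))
  have hdet : Det p Z' (fun ω => Z ω ∩ S' ω) := by
    intro ω ω' h h' he
    have h1 : ω' ∈ Z' ω := he ▸ hZ' ω' h'
    exact (hD ω ω' h h' ⟨hsub ω h h1, hS' ω h h1⟩).symm
  have e1 : H p (fun ω => (Z' ω, Z ω ∩ S' ω)) = H p Z' :=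
    H_congr hp (fun ω ω' h h' he => Prod.ext he (hdet ω ω' h h' he))
      (fun ω ω' _ _ he => (Prod.ext_iff.mp he).1)
  unfold CH Sur
  rw [e1]
  unfold H Ex
  rw [neg_sub_neg, ← Finset.sum_sub_distrib]
  refine Finset.sum_congr rfl fun ω _ => ?_
  rcases (hp ω).eq_or_lt with h0 | h0
  · rw [← h0]
    simp
  · rw [law_cls hp hZ' (fun ω ω' h h' he => (hcl' ω ω' h h' he).1) h0,
      law_cls hp (Z := fun ω => Z ω ∩ S' ω) (fun ω h => ⟨hZ ω h, hS ω h⟩) hD h0]
    ring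

/-- **Fano.** Off `E` the variable `X` is a function of `W`; it has at most `M` values given `W`. -/
theorem fano {S T : Type} {p : Ω → ℝ} (hp : IsLaw p) (X : Ω → S) (W : Ω → T) {M : ℕ}
    (code : Ω → Fin M) (hcode : Det p (fun ω => (W ω, code ω)) X) (E : Set Ω)
    (hE : ∀ ω ω', 0 < p ω → 0 < p ω' → ω ∉ E → ω' ∉ E → W ω = W ω' → X ω = X ω') :
    CH p X W ≤ Real.binEntropy (Pr p E) + Pr p E * Real.log M := by
  classical
  have hp0 : ∀ ω, 0 ≤ p ω := hp.1
  have hp1 : ∑ ω, p ω = 1 := hp.2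
  set V : Ω → Prop × T := fun ω => (ω ∈ E, W ω) with hV
  have h1 : CH p X W ≤ CH p (fun ω => ω ∈ E) W + CH p X V := CH_le_add hp0 X _ W
  have h2 : CH p (fun ω => ω ∈ E) W ≤ H p (fun ω => ω ∈ E) := Pool.KX.JBG.CH_le_H' hp0 hp1 _ _
  have hPc : law p (fun ω => ω ∈ E) False = 1 - Pr p E := by
    have e1 : law p (fun ω => ω ∈ E) False = ∑ ω, if ω ∈ E then 0 else p ω := by
      unfold law
      refine Finset.sum_congr rfl fun ω _ => ?_
      by_cases h : ω ∈ E
      · rw [if_pos h, if_neg (by simpa using h)]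
      · rw [if_neg h, if_pos (by simpa using h)]
    have e2 : (∑ ω, if ω ∈ E then 0 else p ω) + Pr p E = 1 := by
      rw [Pr_eq, ← Finset.sum_add_distrib, ← hp1]
      refine Finset.sum_congr rfl fun ω _ => ?_
      split_ifs <;> simp
    rw [e1]
    linarith
  have h3 : H p (fun ω => ω ∈ E) = Real.binEntropy (Pr p E) := by
    unfold H
    rw [sum_mul_eq_sum_image p (fun ω => ω ∈ E) (fun z => Real.log (law p (fun ω => ω ∈ E) z))]
    have e1 : ∑ z ∈ univ.image (fun ω => ω ∈ E), law p (fun ω => ω ∈ E) z *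
        Real.log (law p (fun ω => ω ∈ E) z) = ∑ z ∈ ({True, False} : Finset Prop),
          law p (fun ω => ω ∈ E) z * Real.log (law p (fun ω => ω ∈ E) z) := by
      refine Finset.sum_subset (fun z _ => ?_) fun z _ hz => ?_
      · by_cases h : z
        · simp [h]
        · simp [h]
      · rw [law_eq_zero_of_notMem p _ hz, zero_mul]
    rw [e1, Finset.sum_pair (by simp), hPc]
    have e2 : law p (fun ω => ω ∈ E) True = Pr p E := rfl
    rw [e2, Real.binEntropy_eq_negMulLog_add_negMulLog_one_sub]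
    unfold Real.negMulLog
    ring
  have h4 : CH p X V ≤ Pr p E * Real.log M := by
    rw [← CDF.Ex_H hp0, Pr_eq, Finset.sum_mul]
    unfold Ex
    refine Finset.sum_le_sum fun ω _ => ?_
    rcases (hp0 ω).eq_or_lt with h0 | h0
    · rw [← h0]
      simp
    have hpos : law p V (V ω) ≠ 0 := (law_pos hp0 V h0).ne'
    have hc0 : ∀ v, 0 ≤ cond p V (V ω) v := cond_nonneg hp0 V _
    have hc1 := sum_cond p V hpos
    by_cases h : ω ∈ E
    · rw [if_pos h]
      refine mul_le_mul_of_nonneg_left ?_ h0.le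
      have h5 : H (cond p V (V ω)) X ≤ H (cond p V (V ω)) code := by
        refine H_mono hc0 fun v v' hv hv' he => ?_
        rw [cond_pos_iff hp0] at hv hv'
        refine hcode v v' hv.1 hv'.1 ?_
        have h6 : V v = V v' := hv.2.trans hv'.2.symm
        exact Prod.ext (Prod.ext_iff.mp h6).2 he
      have h7 := H_le_log_card hc0 hc1 code (univ.image code)
        (fun v _ => Finset.mem_image_of_mem _ (Finset.mem_univ v))
      have hM : 0 < M := Fin.pos (code ω)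
      have h8 : ((univ.image code).card : ℝ) ≤ M := by
        have := Finset.card_le_univ (univ.image code)
        rw [Fintype.card_fin] at this
        exact_mod_cast this
      have h9 : (0 : ℝ) < (univ.image code).card := by
        have : 0 < (univ.image code).card :=
          Finset.card_pos.mpr ⟨code ω, Finset.mem_image_of_mem _ (Finset.mem_univ _)⟩
        exact_mod_cast this
      exact h5.trans (h7.trans (Real.log_le_log h9 h8))
    · rw [if_neg h]
      have h5 : H (cond p V (V ω)) X = H (cond p V (V ω)) (fun _ => ()) := by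
        refine H_congr hc0 (fun v v' hv hv' _ => ?_) fun v v' _ _ _ => rfl
        rw [cond_pos_iff hp0] at hv hv'
        have e1 := Prod.ext_iff.mp hv.2
        have e2 := Prod.ext_iff.mp hv'.2
        have e3 : v ∉ E := fun hh => h ((iff_of_eq e1.1).mp hh)
        have e4 : v' ∉ E := fun hh => h ((iff_of_eq e2.1).mp hh)
        exact hE v v' hv.1 hv'.1 e3 e4 (e1.2.trans e2.2.symm)
      simp only [h5, H_const hc1]
      simp
  linarith

lemma binEntropy_le {x : ℝ} (h1 : x ≤ 1) :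
    Real.binEntropy x ≤ Real.negMulLog x + x := by
  rw [Real.binEntropy_eq_negMulLog_add_negMulLog_one_sub]
  have h : Real.negMulLog (1 - x) ≤ x := by
    rcases h1.eq_or_lt with h2 | h2
    · rw [h2]
      simp
    · have h3 : 0 < 1 - x := by linarith
      unfold Real.negMulLog
      have h4 := Real.one_sub_inv_le_log_of_pos h3
      have h5 : (1 - x) * (1 - (1 - x)⁻¹) ≤ (1 - x) * Real.log (1 - x) :=
        mul_le_mul_of_nonneg_left h4 h3.le
      have h6 : (1 - x) * (1 - (1 - x)⁻¹) = -x := by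
        rw [mul_sub, mul_inv_cancel₀ h3.ne']
        ring
      linarith
  linarith

/-- The sum of `n` values of `- x log x` with sum `Q`. -/
lemma sum_negMulLog {n : ℕ} (q : ℕ → ℝ) (h0 : ∀ k, 0 ≤ q k) :
    ∑ k ∈ range n, Real.negMulLog (q k) ≤
      (∑ k ∈ range n, q k) * Real.log n + Real.negMulLog (∑ k ∈ range n, q k) := by
  rcases Nat.eq_zero_or_pos n with hn | hn
  · subst hn
    simp
  have hn' : (0 : ℝ) < n := by exact_mod_cast hn
  set Q := ∑ k ∈ range n, q k with hQ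
  have h1 := Real.concaveOn_negMulLog.le_map_sum (t := range n) (w := fun _ => (1 : ℝ) / n)
    (p := q) (fun _ _ => by positivity)
    (by rw [Finset.sum_const, Finset.card_range, nsmul_eq_mul]; field_simp)
    (fun k _ => h0 k)
  simp only [smul_eq_mul, ← Finset.mul_sum] at h1
  rw [← hQ] at h1
  have h2 : Real.negMulLog (1 / n * Q) * n = Q * Real.log n + Real.negMulLog Q := by
    have hQ0 : 0 ≤ Q := Finset.sum_nonneg fun k _ => h0 k
    clear_value Q
    rcases hQ0.eq_or_lt with h3 | h3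
    · rw [← h3]
      simp
    · unfold Real.negMulLog
      rw [Real.log_mul (by positivity) h3.ne', one_div, Real.log_inv]
      field_simp
      ring
  have h3 : 1 / (n : ℝ) * ∑ k ∈ range n, Real.negMulLog (q k) * n =
      ∑ k ∈ range n, Real.negMulLog (q k) := by
    rw [← Finset.sum_mul]
    field_simp
  have h4 := mul_le_mul_of_nonneg_right h1 hn'.le
  rw [h2] at h4
  calc ∑ k ∈ range n, Real.negMulLog (q k) =
      1 / (n : ℝ) * (∑ k ∈ range n, Real.negMulLog (q k)) * n := by field_simp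
    _ ≤ _ := h4

lemma negMulLog_le {Q : ℝ} (h : 0 ≤ Q) : Real.negMulLog Q ≤ 1 - Q := by
  rcases h.eq_or_lt with h0 | h0
  · rw [← h0]
    simp
  · unfold Real.negMulLog
    have h1 := Real.one_sub_inv_le_log_of_pos h0
    have h2 : Q * (1 - Q⁻¹) ≤ Q * Real.log Q := mul_le_mul_of_nonneg_left h1 h0.le
    rw [mul_sub, mul_inv_cancel₀ h0.ne'] at h2
    linarith

/-- The sum of the surprises of the steps, from the sum `Q` of the probabilities of a wrong
prediction. -/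
theorem sum_fano {n M : ℕ} (q : ℕ → ℝ) (h0 : ∀ k, 0 ≤ q k) (h1 : ∀ k, q k ≤ 1) :
    ∑ k ∈ range n, (Real.binEntropy (q k) + q k * Real.log M) ≤
      (∑ k ∈ range n, q k) * (Real.log n + Real.log M) + 1 := by
  have h2 : ∑ k ∈ range n, (Real.binEntropy (q k) + q k * Real.log M) ≤
      ∑ k ∈ range n, (Real.negMulLog (q k) + q k + q k * Real.log M) :=
    Finset.sum_le_sum fun k _ => by linarith [binEntropy_le (h1 k)]
  have h3 := sum_negMulLog (n := n) q h0
  have h4 := negMulLog_le (Finset.sum_nonneg fun k (_ : k ∈ range n) => h0 k)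
  rw [Finset.sum_add_distrib, Finset.sum_add_distrib, Finset.sum_add_distrib,
    ← Finset.sum_mul] at h2
  rw [Finset.sum_add_distrib, ← Finset.sum_mul]
  linarith

/-- The predictions along a path: off `E k` the next class is a function of the context and of the
next static record; a code with `M` values gives the next class in any case. -/
structure Prd (p : Ω → ℝ) (n M : ℕ) (S Z : ℕ → Ω → Set Ω) (E : ℕ → Set Ω)
    (code : ℕ → Ω → Fin M) : Prop where
  prd : ∀ k < n, ∀ ω ω', 0 < p ω → 0 < p ω' → ω ∉ E k → ω' ∉ E k →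
    ω' ∈ Z k ω → ω' ∈ S (k + 1) ω → Z (k + 1) ω' = Z (k + 1) ω
  cod : ∀ k < n, ∀ ω ω', 0 < p ω → 0 < p ω' → ω' ∈ Z k ω → ω' ∈ S (k + 1) ω →
    code k ω = code k ω' → Z (k + 1) ω' = Z (k + 1) ω

/-- The surprises of a path. -/
theorem sum_Sur {p : Ω → ℝ} (hp : IsLaw p) {n M : ℕ} {S Z : ℕ → Ω → Set Ω}
    (hP : Pth p n S Z) {E : ℕ → Set Ω} {code : ℕ → Ω → Fin M} (hE : Prd p n M S Z E code) :
    ∑ k ∈ range n, Sur p (S (k + 1)) (Z k) (Z (k + 1)) ≤
      (∑ k ∈ range n, Pr p (E k)) * (Real.log n + Real.log M) + 1 := by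
  have hp0 : ∀ ω, 0 ≤ p ω := hp.1
  refine le_trans (Finset.sum_le_sum fun k hk => ?_)
    (sum_fano (n := n) (M := M) (fun k => Pr p (E k)) (fun k => Pr_nonneg hp0 _)
      (fun k => Pr_le_one hp0 hp.2 _))
  have hk := Finset.mem_range.mp hk
  have hS : ∀ ω, 0 < p ω → ω ∈ S (k + 1) ω := fun ω h =>
    hP.sub (k + 1) hk ω h (hP.mem (k + 1) hk ω h)
  have hcl : ∀ ω ω', 0 < p ω → 0 < p ω' → ω' ∈ Z k ω → Z k ω' = Z k ω :=
    fun ω ω' h h' he => (hP.cls k hk.le ω ω' h h' he).1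
  rw [Sur_eq hp0 (hP.mem k hk.le) (hP.mem (k + 1) hk) (hP.sub (k + 1) hk) (hP.nxt k hk) hcl
    (hP.cls (k + 1) hk) (hP.dsj k hk)]
  have hhalf : ∀ ω ω', 0 < p ω → 0 < p ω' →
      Z k ω ∩ S (k + 1) ω = Z k ω' ∩ S (k + 1) ω' → ω' ∈ Z k ω ∧ ω' ∈ S (k + 1) ω := by
    intro ω ω' h h' he
    have : ω' ∈ Z k ω' ∩ S (k + 1) ω' := ⟨hP.mem k hk.le ω' h', hS ω' h'⟩
    rw [← he] at this
    exact this
  refine fano hp (Z (k + 1)) _ (code k) (fun ω ω' h h' he => ?_) (E k)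
    (fun ω ω' h h' h1 h2 he => ?_)
  · have e1 := Prod.ext_iff.mp he
    obtain ⟨h3, h4⟩ := hhalf ω ω' h h' e1.1
    exact (hE.cod k hk ω ω' h h' h3 h4 e1.2).symm
  · obtain ⟨h3, h4⟩ := hhalf ω ω' h h' he
    exact (hE.prd k hk ω ω' h h' h1 h2 h3 h4).symm

/-- **Row entropy** (K_Y (2.1)): the velocity cells at the end of a path, given the static record
at the end of the path. -/
theorem row_thm {p : Ω → ℝ} (hp : IsLaw p) {n M : ℕ} {S Z : ℕ → Ω → Set Ω}
    (hP : Pth p n S Z) {E : ℕ → Set Ω} {code : ℕ → Ω → Fin M} (hE : Prd p n M S Z E code) :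
    RR p (S n) (Z n) ≤ RR p (S 0) (Z 0) +
      (∑ k ∈ range n, Pr p (E k)) * (Real.log n + Real.log M) + 1 := by
  have h1 := leaks_eq (p := p) (n := n) S Z
  have h2 : 0 ≤ ∑ k ∈ range n, Ex p (lk p (S k) (S (k + 1)) (Z k)) := by
    refine Finset.sum_nonneg fun k hk => ?_
    have hk := Finset.mem_range.mp hk
    exact gibbs hp.1 (S k) (S (k + 1)) (Z k) (hP.mem k hk.le)
      (fun ω h => hP.sub (k + 1) hk ω h (hP.mem (k + 1) hk ω h)) (hP.cls k hk.le)
      (hP.nst k hk) (hP.dsj k hk)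
  have h3 := sum_Sur hp hP hE
  linarith

open Classical in
/-- **Leaks of one path with predictions.** -/
theorem one_path {p : Ω → ℝ} (hp : IsLaw p) {n M : ℕ} {S Z : ℕ → Ω → Set Ω}
    (hP : Pth p n S Z) {E : ℕ → Set Ω} {code : ℕ → Ω → Fin M} (hE : Prd p n M S Z E code)
    (Y : ℕ → Ω → Set Ω) (T : ℕ → Set Ω)
    (hT : ∀ k < n, ∀ ω ω', 0 < p ω → 0 < p ω' → ω' ∈ Z k ω → ω ∈ T k → ω' ∈ T k)
    (hY : ∀ k < n, ∀ ω, 0 < p ω → ω ∈ T k → S (k + 1) ω ⊆ Y k ω)
    (hYd : ∀ k < n, ∀ ω ω', 0 < p ω → 0 < p ω' → ω ∈ T k → ω' ∈ Z k ω →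
      Y k ω' = Y k ω ∨ Disjoint (Y k ω') (Y k ω)) :
    ∑ k ∈ range n, Ex p (fun ω => if ω ∈ T k then lk p (S k) (Y k) (Z k) ω else 0) ≤
      RR p (S 0) (Z 0) + (∑ k ∈ range n, Pr p (E k)) * (Real.log n + Real.log M) + 1 := by
  have h1 := pth_thm hp.1 hP Y T hT hY hYd
  have h2 := sum_Sur hp hP hE
  linarith

end Pool.KY
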