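import Pool.Agent.H71.KY.Fan

/-!
# Averaging over the starting places, static defects, and Lemma Y
-/

set_option autoImplicit false

namespace Pool.KY

open Finset Real
open Pool.Agent.H49.Ent Pool.Agent.H32.Dense Pool.STK Pool.KAF Pool.KAL

variable {Ω : Type} [Fintype Ω]

open Classical in
/-- Adapted nonnegative weights. -/
theorem leak_weight_nonneg {p : Ω → ℝ} (hp : ∀ ω, 0 ≤ p ω) {S S' Z : Ω → Set Ω} (W : Ω → ℝ)
    (hW : ∀ ω, 0 < p ω → 0 ≤ W ω)
    (hZ : ∀ ω, 0 < p ω → 0 < W ω → ω ∈ Z ω)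
    (hS' : ∀ ω, 0 < p ω → 0 < W ω → ω ∈ S' ω)
    (hcl : ∀ ω ω', 0 < p ω → 0 < p ω' → 0 < W ω → ω' ∈ Z ω → Z ω' = Z ω ∧ S ω' = S ω)
    (hsub : ∀ ω, 0 < p ω → 0 < W ω → S' ω ⊆ S ω)
    (hdj : ∀ ω ω', 0 < p ω → 0 < p ω' → 0 < W ω → ω' ∈ Z ω →
      S' ω' = S' ω ∨ Disjoint (S' ω') (S' ω))
    (hT : ∀ ω ω', 0 < p ω → 0 < p ω' → 0 < W ω → ω' ∈ Z ω → W ω' = W ω) :
    0 ≤ Ex p (fun ω => W ω * lk p S S' Z ω) := by
  have e1 : Ex p (fun ω => W ω * lk p S S' Z ω) =
      ∑ v ∈ univ.image W, v * Ex p (fun ω => if W ω = v then lk p S S' Z ω else 0) := by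
    unfold Ex
    simp_rw [Finset.mul_sum]
    rw [Finset.sum_comm]
    refine Finset.sum_congr rfl fun ω _ => ?_
    rw [Finset.sum_eq_single (W ω)]
    · simp only [if_true]
      ring
    · intro v _ hv
      rw [if_neg (Ne.symm hv)]
      simp
    · intro h
      exact absurd (Finset.mem_image_of_mem W (Finset.mem_univ ω)) h
  rw [e1]
  refine Finset.sum_nonneg fun v _ => ?_
  rcases lt_trichotomy v 0 with h | h | h
  · have e2 : Ex p (fun ω => if W ω = v then lk p S S' Z ω else 0) = 0 := by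
      unfold Ex
      refine Finset.sum_eq_zero fun ω _ => ?_
      rcases (hp ω).eq_or_lt with h0 | h0
      · rw [← h0, zero_mul]
      · beta_reduce
        rw [if_neg (fun hh : W ω = v => absurd (hh ▸ hW ω h0) (not_le.mpr h)), mul_zero]
    rw [e2, mul_zero]
  · rw [h, zero_mul]
  · refine mul_nonneg h.le ?_
    have h2 := leak_on_nonneg (S := S) (S' := S') (Z := Z) (T := {ω | W ω = v}) hp
      (fun ω h0 hT => hZ ω h0 (by rw [show W ω = v from hT]; exact h))
      (fun ω h0 hT => hS' ω h0 (by rw [show W ω = v from hT]; exact h))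
      (fun ω ω' h0 h0' hT => hcl ω ω' h0 h0' (by rw [show W ω = v from hT]; exact h))
      (fun ω h0 hT => hsub ω h0 (by rw [show W ω = v from hT]; exact h))
      (fun ω ω' h0 h0' hT => hdj ω ω' h0 h0' (by rw [show W ω = v from hT]; exact h))
      (fun ω ω' h0 h0' hv hω => (hT ω ω' h0 h0' (by rw [show W ω = v from hv]; exact h) hω).trans
        hv)
    exact h2

/-- A target: on the event `T`, the context class `Z ω` with its static class `S ω` and the static
class `Y ω` of the next digits of the position. -/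
structure Tgt (p : Ω → ℝ) (S Z Y : Ω → Set Ω) (T : Set Ω) : Prop where
  mem : ∀ ω, 0 < p ω → ω ∈ T → ω ∈ Z ω
  cls : ∀ ω ω', 0 < p ω → 0 < p ω' → ω ∈ T → ω' ∈ Z ω → Z ω' = Z ω ∧ S ω' = S ω
  stb : ∀ ω ω', 0 < p ω → 0 < p ω' → ω ∈ T → ω' ∈ Z ω → ω' ∈ T
  ymem : ∀ ω, 0 < p ω → ω ∈ T → ω ∈ Y ω
  ysub : ∀ ω, 0 < p ω → ω ∈ T → Y ω ⊆ S ω
  ydj : ∀ ω ω', 0 < p ω → 0 < p ω' → ω ∈ T → ω' ∈ Z ω → Y ω' = Y ω ∨ Disjoint (Y ω') (Y ω)

/-- The path `(S', Z')` visits the target `j = tg k` at the step `k`, on the adapted event `V k`. -/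
structure Vis {κ : Type} (p : Ω → ℝ) (n : ℕ) (S' Z' : ℕ → Ω → Set Ω) (S Z Y : κ → Ω → Set Ω)
    (T : κ → Set Ω) (tg : ℕ → κ) (V : ℕ → Set Ω) : Prop where
  sub : ∀ k < n, ∀ ω, 0 < p ω → ω ∈ V k → ω ∈ T (tg k)
  st : ∀ k < n, ∀ ω, 0 < p ω → ω ∈ V k → S' k ω = S (tg k) ω ∧ Z' k ω = Z (tg k) ω
  nxt : ∀ k < n, ∀ ω, 0 < p ω → ω ∈ V k → S' (k + 1) ω ⊆ Y (tg k) ω
  stb : ∀ k < n, ∀ ω ω', 0 < p ω → 0 < p ω' → ω' ∈ Z' k ω → ω ∈ V k → ω' ∈ V k

open Classical in
/-- **Averaging over the paths.** Every target is visited, at each of its places, by at least `N₀`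
steps of paths. -/
theorem avg_thm {ι κ : Type} {p : Ω → ℝ} (hp : IsLaw p) (I : Finset ι) (J : Finset κ)
    (n : ι → ℕ) (M : ℕ) (S' Z' : ι → ℕ → Ω → Set Ω) (E : ι → ℕ → Set Ω)
    (code : ι → ℕ → Ω → Fin M) (hP : ∀ i ∈ I, Pth p (n i) (S' i) (Z' i))
    (hE : ∀ i ∈ I, Prd p (n i) M (S' i) (Z' i) (E i) (code i))
    (S Z Y : κ → Ω → Set Ω) (T : κ → Set Ω) (hT : ∀ j ∈ J, Tgt p (S j) (Z j) (Y j) (T j))
    (tg : ι → ℕ → κ) (V : ι → ℕ → Set Ω)
    (hV : ∀ i ∈ I, Vis p (n i) (S' i) (Z' i) S Z Y T (tg i) (V i))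
    (htg : ∀ i ∈ I, ∀ k < n i, tg i k ∈ J) (N₀ : ℕ)
    (hN : ∀ j ∈ J, ∀ ω, 0 < p ω → ω ∈ T j →
      N₀ ≤ ∑ i ∈ I, ((range (n i)).filter fun k => tg i k = j ∧ ω ∈ V i k).card) :
    (N₀ : ℝ) * ∑ j ∈ J, Ex p (fun ω => if ω ∈ T j then lk p (S j) (Y j) (Z j) ω else 0) ≤
      ∑ i ∈ I, (RR p (S' i 0) (Z' i 0) +
        (∑ k ∈ range (n i), Pr p (E i k)) * (Real.log (n i) + Real.log M) + 1) := by
  have hp0 : ∀ ω, 0 ≤ p ω := hp.1
  -- the paths
  have h1 : ∀ i ∈ I, ∑ k ∈ range (n i), Ex p (fun ω => if ω ∈ V i k then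
      lk p (S (tg i k)) (Y (tg i k)) (Z (tg i k)) ω else 0) ≤
      RR p (S' i 0) (Z' i 0) +
        (∑ k ∈ range (n i), Pr p (E i k)) * (Real.log (n i) + Real.log M) + 1 := by
    intro i hi
    have hVi := hV i hi
    have h2 := one_path hp (hP i hi) (hE i hi) (fun k => Y (tg i k)) (V i) (hVi.stb) (hVi.nxt)
      (fun k hk ω ω' h h' hω he => by
        refine (hT _ (htg i hi k hk)).ydj ω ω' h h' (hVi.sub k hk ω h hω) ?_
        rw [← (hVi.st k hk ω h hω).2]
        exact he)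
    refine le_trans (le_of_eq ?_) h2
    refine Finset.sum_congr rfl fun k hk => ?_
    have hk := Finset.mem_range.mp hk
    unfold Ex
    refine Finset.sum_congr rfl fun ω _ => ?_
    rcases (hp0 ω).eq_or_lt with h0 | h0
    · rw [← h0, zero_mul, zero_mul]
    congr 1
    beta_reduce
    by_cases h3 : ω ∈ V i k
    · rw [if_pos h3, if_pos h3]
      unfold lk
      rw [(hVi.st k hk ω h0 h3).1, (hVi.st k hk ω h0 h3).2]
    · rw [if_neg h3, if_neg h3]
  -- the number of visits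
  set N : κ → Ω → ℕ := fun j ω =>
    ∑ i ∈ I, ((range (n i)).filter fun k => tg i k = j ∧ ω ∈ V i k).card with hNd
  have h2 : ∑ i ∈ I, ∑ k ∈ range (n i), Ex p (fun ω => if ω ∈ V i k then
      lk p (S (tg i k)) (Y (tg i k)) (Z (tg i k)) ω else 0) =
      ∑ j ∈ J, Ex p (fun ω => (N j ω : ℝ) * lk p (S j) (Y j) (Z j) ω) := by
    have e1 : ∀ i ∈ I, ∀ k ∈ range (n i), Ex p (fun ω => if ω ∈ V i k then
        lk p (S (tg i k)) (Y (tg i k)) (Z (tg i k)) ω else 0) =
        ∑ j ∈ J, Ex p (fun ω => (if tg i k = j ∧ ω ∈ V i k then 1 else 0) *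
          lk p (S j) (Y j) (Z j) ω) := by
      intro i hi k hk
      rw [Finset.sum_eq_single (tg i k)]
      · unfold Ex
        refine Finset.sum_congr rfl fun ω _ => ?_
        by_cases h3 : ω ∈ V i k
        · simp [h3]
        · simp [h3]
      · intro j _ hj
        unfold Ex
        refine Finset.sum_eq_zero fun ω _ => ?_
        beta_reduce
        rw [if_neg (fun hh => hj hh.1.symm)]
        simp
      · intro h
        exact absurd (htg i hi k (Finset.mem_range.mp hk)) h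
    rw [Finset.sum_congr rfl fun i hi => Finset.sum_congr rfl (e1 i hi)]
    have e2 : ∑ i ∈ I, ∑ k ∈ range (n i), ∑ j ∈ J, Ex p (fun ω =>
        (if tg i k = j ∧ ω ∈ V i k then 1 else 0) * lk p (S j) (Y j) (Z j) ω) =
        ∑ j ∈ J, ∑ i ∈ I, ∑ k ∈ range (n i), Ex p (fun ω =>
        (if tg i k = j ∧ ω ∈ V i k then 1 else 0) * lk p (S j) (Y j) (Z j) ω) := by
      rw [Finset.sum_congr rfl fun i _ => Finset.sum_comm]
      rw [Finset.sum_comm]
    rw [e2]
    refine Finset.sum_congr rfl fun j _ => ?_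
    unfold Ex
    rw [Finset.sum_congr rfl fun i _ => Finset.sum_comm, Finset.sum_comm]
    refine Finset.sum_congr rfl fun ω _ => ?_
    have e3 : (N j ω : ℝ) = ∑ i ∈ I, ∑ k ∈ range (n i),
        (if tg i k = j ∧ ω ∈ V i k then (1 : ℝ) else 0) := by
      rw [hNd]
      push_cast
      refine Finset.sum_congr rfl fun i _ => ?_
      rw [Finset.sum_boole]
    beta_reduce
    rw [e3, Finset.sum_mul, Finset.mul_sum]
    refine Finset.sum_congr rfl fun i _ => ?_
    rw [Finset.sum_mul, Finset.mul_sum]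
  have h3 : ∀ j ∈ J, (N₀ : ℝ) * Ex p (fun ω => if ω ∈ T j then lk p (S j) (Y j) (Z j) ω else 0) ≤
      Ex p (fun ω => (N j ω : ℝ) * lk p (S j) (Y j) (Z j) ω) := by
    intro j hj
    have hTj := hT j hj
    have hzero : ∀ ω, 0 < p ω → ω ∉ T j → N j ω = 0 := by
      intro ω h hω
      rw [hNd]
      refine Finset.sum_eq_zero fun i hi => ?_
      rw [Finset.card_eq_zero, Finset.filter_eq_empty_iff]
      rintro k hk ⟨rfl, h4⟩
      exact hω ((hV i hi).sub k (Finset.mem_range.mp hk) ω h h4)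
    have hconst : ∀ ω ω', 0 < p ω → 0 < p ω' → ω ∈ T j → ω' ∈ Z j ω → N j ω' = N j ω := by
      intro ω ω' h h' hω he
      rw [hNd]
      refine Finset.sum_congr rfl fun i hi => ?_
      congr 1
      refine Finset.filter_congr fun k hk => ?_
      have hk := Finset.mem_range.mp hk
      refine and_congr_right fun h5 => ?_
      have hω' : ω' ∈ T j := hTj.stb ω ω' h h' hω he
      have hcl := (hTj.cls ω ω' h h' hω he).1
      constructor
      · intro h6
        refine (hV i hi).stb k hk ω' ω h' h ?_ h6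
        rw [((hV i hi).st k hk ω' h' h6).2, h5, hcl]
        exact hTj.mem ω h hω
      · intro h6
        refine (hV i hi).stb k hk ω ω' h h' ?_ h6
        rw [((hV i hi).st k hk ω h h6).2, h5]
        exact he
    have hpos : ∀ ω, 0 < p ω → 0 < (N j ω : ℝ) - (if ω ∈ T j then (N₀ : ℝ) else 0) → ω ∈ T j := by
      intro ω h hW
      by_contra hcon
      rw [if_neg hcon, hzero ω h hcon] at hW
      simp at hW
    have h4 := leak_weight_nonneg (S := S j) (S' := Y j) (Z := Z j) hp0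
      (fun ω => (N j ω : ℝ) - (if ω ∈ T j then (N₀ : ℝ) else 0))
      (fun ω h => by
        by_cases h5 : ω ∈ T j
        · rw [if_pos h5]
          have := hN j hj ω h h5
          have h6 : (N₀ : ℝ) ≤ N j ω := by exact_mod_cast this
          linarith
        · rw [if_neg h5]
          simp)
      (fun ω h hW => hTj.mem ω h (hpos ω h hW))
      (fun ω h hW => hTj.ymem ω h (hpos ω h hW))
      (fun ω ω' h h' hW he => hTj.cls ω ω' h h' (hpos ω h hW) he)
      (fun ω h hW => hTj.ysub ω h (hpos ω h hW))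
      (fun ω ω' h h' hW he => hTj.ydj ω ω' h h' (hpos ω h hW) he)
      (fun ω ω' h h' hW he => by
        have h5 := hpos ω h hW
        have h6 := hTj.stb ω ω' h h' h5 he
        simp only [h5, h6, if_true]
        rw [hconst ω ω' h h' h5 he])
    have e4 : Ex p (fun ω => ((N j ω : ℝ) - (if ω ∈ T j then (N₀ : ℝ) else 0)) *
        lk p (S j) (Y j) (Z j) ω) = Ex p (fun ω => (N j ω : ℝ) * lk p (S j) (Y j) (Z j) ω) -
        (N₀ : ℝ) * Ex p (fun ω => if ω ∈ T j then lk p (S j) (Y j) (Z j) ω else 0) := by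
      unfold Ex
      rw [Finset.mul_sum, ← Finset.sum_sub_distrib]
      refine Finset.sum_congr rfl fun ω _ => ?_
      beta_reduce
      split_ifs <;> ring
    rw [e4] at h4
    linarith
  calc (N₀ : ℝ) * ∑ j ∈ J, Ex p (fun ω => if ω ∈ T j then lk p (S j) (Y j) (Z j) ω else 0)
      = ∑ j ∈ J, (N₀ : ℝ) * Ex p (fun ω => if ω ∈ T j then lk p (S j) (Y j) (Z j) ω else 0) :=
        Finset.mul_sum _ _ _
    _ ≤ ∑ j ∈ J, Ex p (fun ω => (N j ω : ℝ) * lk p (S j) (Y j) (Z j) ω) :=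
        Finset.sum_le_sum h3
    _ = _ := h2.symm
    _ ≤ _ := Finset.sum_le_sum h1

/-- The log-defect of the class `Y` (one of `M` classes) given the context `Z`. -/
noncomputable def df (p : Ω → ℝ) (M : ℕ) (Z Y : Ω → Set Ω) (ω : Ω) : ℝ :=
  Real.log M + Real.log (Pr p (Z ω ∩ Y ω)) - Real.log (Pr p (Z ω))

lemma df_eq {p : Ω → ℝ} {M : ℕ} {S Z Y : Ω → Set Ω} {ω : Ω} (hY : Y ω ⊆ S ω) :
    df p M Z Y ω = lk p S Y Z ω + df p M S Y ω := by
  unfold df lk
  rw [Set.inter_eq_right.mpr hY]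
  ring

/-- The part of a static defect. -/
lemma exp_aux {L : ℝ} (hL : 0 ≤ L) : L ^ 2 ≤ 2 * (Real.exp L - 1 - L) := by
  have := Real.quadratic_le_exp_of_nonneg hL
  linarith

/-- **Static defects at sample level.** `y` has at most `M` values. -/
theorem def_thm {S T : Type} {p : Ω → ℝ} (hp : IsLaw p) (s : Ω → S) (y : Ω → T) (F : Finset T)
    (hF : ∀ ω, y ω ∈ F) (hF0 : 0 < F.card) :
    Ex p (fun ω => |Real.log F.card + Real.log (law p (fun ω => (y ω, s ω)) (y ω, s ω)) -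
      Real.log (law p s (s ω))|) ≤
      (Real.log F.card - CH p y s) + 2 * Real.sqrt (2 * (Real.log F.card - CH p y s)) := by
  classical
  have hp0 : ∀ ω, 0 ≤ p ω := hp.1
  have hM : (0 : ℝ) < F.card := by exact_mod_cast hF0
  set M : ℝ := (F.card : ℝ) with hMd
  set a : Ω → ℝ := fun ω => law p (fun ω => (y ω, s ω)) (y ω, s ω) with ha
  set b : Ω → ℝ := fun ω => law p s (s ω) with hb
  set u : Ω → ℝ := fun ω => Real.log M + Real.log (a ω) - Real.log (b ω) with hu
  have hapos : ∀ ω, 0 < p ω → 0 < a ω := fun ω h => law_pos hp0 (fun ω => (y ω, s ω)) h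
  have hbpos : ∀ ω, 0 < p ω → 0 < b ω := fun ω h => law_pos hp0 s h
  have hmean : Ex p u = Real.log M - CH p y s := by
    unfold Ex CH H
    simp only [hu, mul_sub, mul_add, Finset.sum_sub_distrib, Finset.sum_add_distrib]
    rw [← Finset.sum_mul, hp.2]
    ring
  -- `w = 1 / u`
  have hw : Ex p (fun ω => b ω / (M * a ω)) ≤ 1 := by
    have e1 : Ex p (fun ω => b ω / (M * a ω)) =
        ∑ z ∈ univ.image (fun ω => (y ω, s ω)), law p (fun ω => (y ω, s ω)) z *
          (law p s z.2 / (M * law p (fun ω => (y ω, s ω)) z)) :=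
      sum_mul_eq_sum_image p (fun ω => (y ω, s ω))
        (fun z => law p s z.2 / (M * law p (fun ω => (y ω, s ω)) z))
    rw [e1]
    have e2 : ∀ z ∈ univ.image (fun ω => (y ω, s ω)), law p (fun ω => (y ω, s ω)) z *
          (law p s z.2 / (M * law p (fun ω => (y ω, s ω)) z)) ≤ law p s z.2 / M := by
      intro z _
      rcases (law_nonneg hp0 (fun ω => (y ω, s ω)) z).eq_or_lt with h0 | h0
      · rw [← h0]
        simp only [zero_mul]
        exact div_nonneg (law_nonneg hp0 s _) hM.le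
      · apply le_of_eq
        field_simp
    refine (Finset.sum_le_sum e2).trans ?_
    have e3 : ∑ z ∈ univ.image (fun ω => (y ω, s ω)), law p s z.2 / M ≤
        ∑ z ∈ F ×ˢ (univ.image s), law p s z.2 / M := by
      refine Finset.sum_le_sum_of_subset_of_nonneg ?_ ?_
      · intro z hz
        obtain ⟨ω, _, rfl⟩ := Finset.mem_image.mp hz
        exact Finset.mem_product.mpr ⟨hF ω, Finset.mem_image_of_mem _ (Finset.mem_univ _)⟩
      · intro z _ _
        exact div_nonneg (law_nonneg hp0 s _) hM.le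
    refine e3.trans ?_
    rw [Finset.sum_product]
    have e4 : ∀ x ∈ F, ∑ z ∈ univ.image s, law p s (x, z).2 / M = 1 / M := by
      intro x _
      rw [← Finset.sum_div]
      congr 1
      exact (sum_law p s).trans hp.2
    rw [Finset.sum_congr rfl e4, Finset.sum_const, nsmul_eq_mul, ← hMd]
    apply le_of_eq
    field_simp
  -- the negative part
  set v : Ω → ℝ := fun ω => max (-u ω) 0 with hv
  have hv0 : ∀ ω, 0 ≤ v ω := fun ω => le_max_right _ _
  have hkey : ∀ ω, 0 < p ω → v ω ^ 2 ≤ 2 * (b ω / (M * a ω) - 1 + u ω) := by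
    intro ω h
    have h1 := hapos ω h
    have h2 := hbpos ω h
    have h3 : Real.exp (-u ω) = b ω / (M * a ω) := by
      have : -u ω = Real.log (b ω / (M * a ω)) := by
        rw [Real.log_div h2.ne' (by positivity), Real.log_mul hM.ne' h1.ne', hu]
        ring
      rw [this, Real.exp_log (by positivity)]
    rw [← h3]
    rcases le_or_gt 0 (-u ω) with h4 | h4
    · have h5 : v ω = -u ω := max_eq_left h4
      rw [h5]
      have := exp_aux h4
      linarith
    · have h5 : v ω = 0 := max_eq_right h4.le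
      rw [h5]
      have := Real.add_one_le_exp (-u ω)
      nlinarith
  have hv2 : Ex p (fun ω => v ω ^ 2) ≤ 2 * (Real.log M - CH p y s) := by
    have h1 : Ex p (fun ω => v ω ^ 2) ≤ Ex p (fun ω => 2 * (b ω / (M * a ω) - 1 + u ω)) :=
      Ex_mono hp0 hkey
    have h2 : Ex p (fun ω => 2 * (b ω / (M * a ω) - 1 + u ω)) =
        2 * (Ex p (fun ω => b ω / (M * a ω)) - 1 + Ex p u) := by
      rw [Ex_smul, Ex_add, Ex_sub, Ex_const hp.2]
    rw [h2, hmean] at h1
    linarith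
  have hv1 : Ex p v ≤ Real.sqrt (2 * (Real.log M - CH p y s)) := by
    refine Real.le_sqrt_of_sq_le (le_trans ?_ hv2)
    have h1 := Finset.sum_mul_sq_le_sq_mul_sq Finset.univ (fun ω => Real.sqrt (p ω))
      (fun ω => Real.sqrt (p ω) * v ω)
    have e1 : ∀ ω, Real.sqrt (p ω) * (Real.sqrt (p ω) * v ω) = p ω * v ω := by
      intro ω
      rw [← mul_assoc, Real.mul_self_sqrt (hp0 ω)]
    have e2 : ∀ ω, Real.sqrt (p ω) ^ 2 = p ω := fun ω => Real.sq_sqrt (hp0 ω)
    have e3 : ∀ ω, (Real.sqrt (p ω) * v ω) ^ 2 = p ω * v ω ^ 2 := fun ω => by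
      rw [mul_pow, e2]
    simp only [e1, e2, e3] at h1
    rw [hp.2, one_mul] at h1
    exact h1
  have habs : ∀ ω, |u ω| = u ω + 2 * v ω := by
    intro ω
    rcases le_or_gt 0 (u ω) with h | h
    · rw [abs_of_nonneg h, hv]
      simp only
      rw [max_eq_right (by linarith)]
      ring
    · rw [abs_of_neg h, hv]
      simp only
      rw [max_eq_left (by linarith)]
      ring
  have hfin : Ex p (fun ω => |u ω|) = Ex p u + 2 * Ex p v := by
    simp_rw [habs]
    rw [Ex_add, Ex_smul]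
  have : Ex p (fun ω => |Real.log M + Real.log (a ω) - Real.log (b ω)|) = Ex p (fun ω => |u ω|) :=
    rfl
  rw [this, hfin, hmean]
  linarith

end Pool.KY
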