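import Pool.Agent.H71.KY.Lym

/-!
# The potential argument (K_Y3_helper33 (2.1), K_M5_h28 sec. 4)

`S n` is a refining chain of static records, `G n` the tube data of the row number `n`, `y n` the
next digits of the position, known from `S (n + 1)`. With `Ψ n = H (G n | S n)`

`I (y n ; G n | S n) ≤ Ψ n - Ψ (n + 1) + H (G (n + 1) | G n, S (n + 1))`,

hence the sum of the leaks of a column is at most `Ψ` at the start plus the sum of the costs of the
predictions. The second form skips rows: `j i` is the index of the `i`-th good row.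
-/

set_option autoImplicit false

namespace Pool.KY

open Finset Real
open Pool.Agent.H49.Ent Pool.Agent.H32.Dense Pool.STK Pool.KAF Pool.KAL

variable {Ω : Type} [Fintype Ω] {σ γ η : Type}

/-- One step of the potential argument. -/
theorem pot_step {p : Ω → ℝ} (hp : ∀ ω, 0 ≤ p ω) {σ' γ' : Type} (S : Ω → σ) (S' : Ω → σ')
    (G : Ω → γ) (G' : Ω → γ') (y : Ω → η) (hS : Det p S' S) (hy : Det p S' y) :
    CH p y S - CH p y (fun ω => (G ω, S ω)) ≤
      CH p G S - CH p G' S' + CH p G' (fun ω => (G ω, S' ω)) := by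
  -- symmetry of the information
  have h1 : CH p y S - CH p y (fun ω => (G ω, S ω)) = CH p G S - CH p G (fun ω => (y ω, S ω)) := by
    have e1 := CH_chain hp y G S
    have e2 := CH_chain hp G y S
    have e3 : CH p (fun ω => (y ω, G ω)) S = CH p (fun ω => (G ω, y ω)) S :=
      CH_congr hp (fun ω ω' _ _ h => by simp only [Prod.mk.injEq] at h ⊢; tauto)
        (fun ω ω' _ _ h => by simp only [Prod.mk.injEq] at h ⊢; tauto)
        (fun _ _ _ _ h => h) (fun _ _ _ _ h => h)
    linarith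
  have h2 : CH p G S' ≤ CH p G (fun ω => (y ω, S ω)) :=
    CH_mono_cond hp fun ω ω' h h' he => Prod.ext (hy ω ω' h h' he) (hS ω ω' h h' he)
  have h3 : CH p G' S' ≤ CH p G S' + CH p G' (fun ω => (G ω, S' ω)) := CH_le_add hp G' G S'
  linarith

/-- **Potential argument.** -/
theorem pot_thm {p : Ω → ℝ} (hp : ∀ ω, 0 ≤ p ω) (S : ℕ → Ω → σ) (G : ℕ → Ω → γ) (y : ℕ → Ω → η)
    (n : ℕ) (hS : ∀ i < n, Det p (S (i + 1)) (S i)) (hy : ∀ i < n, Det p (S (i + 1)) (y i)) :
    ∑ i ∈ range n, (CH p (y i) (S i) - CH p (y i) (fun ω => (G i ω, S i ω))) ≤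
      CH p (G 0) (S 0) +
        ∑ i ∈ range n, CH p (G (i + 1)) (fun ω => (G i ω, S (i + 1) ω)) := by
  have key : ∀ m ≤ n, ∑ i ∈ range m, (CH p (y i) (S i) - CH p (y i) (fun ω => (G i ω, S i ω))) ≤
      CH p (G 0) (S 0) - CH p (G m) (S m) +
        ∑ i ∈ range m, CH p (G (i + 1)) (fun ω => (G i ω, S (i + 1) ω)) := by
    intro m hm
    induction m with
    | zero => simp
    | succ m ih =>
      rw [Finset.sum_range_succ, Finset.sum_range_succ]
      have h1 := ih (by omega)
      have h2 := pot_step hp (S m) (S (m + 1)) (G m) (G (m + 1)) (y m) (hS m (by omega))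
        (hy m (by omega))
      linarith
  have h1 := key n le_rfl
  have h2 := CH_nonneg hp (G n) (S n)
  linarith

/-- The same for a subsequence `j 0 < j 1 < …` of the rows (the good rows of a column): `y i` is
known from the record of the next good row. -/
theorem pot_sub {p : Ω → ℝ} (hp : ∀ ω, 0 ≤ p ω) (S : ℕ → Ω → σ) (G : ℕ → Ω → γ) (y : ℕ → Ω → η)
    (j : ℕ → ℕ) (n : ℕ) (hS : ∀ i < n, Det p (S (j (i + 1))) (S (j i)))
    (hy : ∀ i < n, Det p (S (j (i + 1))) (y (j i))) :
    ∑ i ∈ range n, (CH p (y (j i)) (S (j i)) -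
        CH p (y (j i)) (fun ω => (G (j i) ω, S (j i) ω))) ≤
      CH p (G (j 0)) (S (j 0)) +
        ∑ i ∈ range n, CH p (G (j (i + 1))) (fun ω => (G (j i) ω, S (j (i + 1)) ω)) :=
  pot_thm hp (fun i => S (j i)) (fun i => G (j i)) (fun i => y (j i)) n hS hy

/-- With the static defects: `y i` has at most `b i` nats; the sum of the defects given the tube
data is at most the static defects plus the right-hand side of `pot_thm`. -/
theorem pot_full {p : Ω → ℝ} (hp : ∀ ω, 0 ≤ p ω) (S : ℕ → Ω → σ) (G : ℕ → Ω → γ) (y : ℕ → Ω → η)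
    (b : ℕ → ℝ) (n : ℕ) (hS : ∀ i < n, Det p (S (i + 1)) (S i))
    (hy : ∀ i < n, Det p (S (i + 1)) (y i)) {ψ e d : ℝ} (hψ : CH p (G 0) (S 0) ≤ ψ)
    (he : ∑ i ∈ range n, CH p (G (i + 1)) (fun ω => (G i ω, S (i + 1) ω)) ≤ e)
    (hd : ∑ i ∈ range n, (b i - CH p (y i) (S i)) ≤ d) :
    ∑ i ∈ range n, (b i - CH p (y i) (fun ω => (G i ω, S i ω))) ≤ ψ + e + d := by
  have h1 := pot_thm hp S G y n hS hy
  rw [Finset.sum_sub_distrib] at h1 hd ⊢
  linarith

end Pool.KY
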