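import Pool.Agent.H71.KY.Pot

/-!
# The potential of K_JUMP_helper22, section 4 (iv)

`b i` is a nested chain of contexts, `Y` the position (all its digits), `Δ i` the block of `Y`
which is read in the step `i`, `s i` the other new digits of `b (i + 1)`. With `Φ i = H (Y | b i)`

`Φ i - Φ (i + 1) = H (Δ i | b i) + I (s i ; Y | b i, Δ i)`.

If the blocks `Δ i` are almost full and `Y` is almost full at the end, the sum of the informations
`I (s i ; Y | b i, Δ i)` is at most the sum of the defects.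
-/

set_option autoImplicit false

namespace Pool.KY

open Finset Real
open Pool.Agent.H49.Ent Pool.Agent.H32.Dense Pool.STK Pool.KAF Pool.KAL

variable {Ω : Type} [Fintype Ω] {β δ ς υ ν : Type}

/-- Conditional mutual information of `X` and `Y` given `Z`. -/
noncomputable def CI3 {A B C : Type} (p : Ω → ℝ) (X : Ω → A) (Y : Ω → B) (Z : Ω → C) : ℝ :=
  CH p X Z - CH p X (fun ω => (Y ω, Z ω))

lemma CI3_nonneg {A B C : Type} {p : Ω → ℝ} (hp : ∀ ω, 0 ≤ p ω) (X : Ω → A) (Y : Ω → B)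
    (Z : Ω → C) : 0 ≤ CI3 p X Y Z := by
  have := CH_mono_cond hp (X := X) (W' := fun ω => (Y ω, Z ω)) (W := Z)
    (fun ω ω' _ _ h => (Prod.ext_iff.mp h).2)
  unfold CI3
  linarith

lemma CI3_symm {A B C : Type} {p : Ω → ℝ} (hp : ∀ ω, 0 ≤ p ω) (X : Ω → A) (Y : Ω → B)
    (Z : Ω → C) : CI3 p X Y Z = CI3 p Y X Z := by
  have e1 := CH_chain hp X Y Z
  have e2 := CH_chain hp Y X Z
  have e3 : CH p (fun ω => (X ω, Y ω)) Z = CH p (fun ω => (Y ω, X ω)) Z :=
    CH_congr hp (fun ω ω' _ _ h => by simp only [Prod.mk.injEq] at h ⊢; tauto)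
      (fun ω ω' _ _ h => by simp only [Prod.mk.injEq] at h ⊢; tauto)
      (fun _ _ _ _ h => h) (fun _ _ _ _ h => h)
  unfold CI3
  linarith

/-- A function of `X` (and of the condition) has less information. -/
lemma CI3_mono {A A' B C : Type} {p : Ω → ℝ} (hp : ∀ ω, 0 ≤ p ω) {X : Ω → A} {X' : Ω → A'}
    {Y : Ω → B} {Z : Ω → C} (h : Det p (fun ω => (X ω, Z ω)) X') :
    CI3 p X' Y Z ≤ CI3 p X Y Z := by
  rw [CI3_symm hp X' Y Z, CI3_symm hp X Y Z]
  unfold CI3
  have := CH_mono_cond hp (X := Y) (W' := fun ω => (X ω, Z ω)) (W := fun ω => (X' ω, Z ω))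
    (fun ω ω' h1 h2 he => Prod.ext (h ω ω' h1 h2 he) (Prod.ext_iff.mp he).2)
  linarith

/-- One step of the potential. -/
theorem potj_step {p : Ω → ℝ} (hp : ∀ ω, 0 ≤ p ω) (b b' : Ω → β) (D : Ω → δ) (s : Ω → ς)
    (Y : Ω → υ) (h1 : Det p b' (fun ω => (b ω, (D ω, s ω))))
    (h2 : Det p (fun ω => (b ω, (D ω, s ω))) b') (hD : Det p Y D) :
    CH p Y b - CH p Y b' = CH p D b + CI3 p s Y (fun ω => (D ω, b ω)) := by
  have e1 : CH p Y b' = CH p Y (fun ω => (s ω, (D ω, b ω))) :=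
    CH_congr hp (fun _ _ _ _ h => (Prod.ext_iff.mp h).1) (fun _ _ _ _ h => (Prod.ext_iff.mp h).1)
      (fun ω ω' a c h => by
        have := h1 ω ω' a c h
        simp only [Prod.mk.injEq] at this ⊢
        tauto)
      (fun ω ω' a c h => h2 ω ω' a c (by
        simp only [Prod.mk.injEq] at h ⊢
        tauto))
  -- `H (Y | b) = H (D | b) + H (Y | D, b)`
  have e2 : CH p Y b = CH p D b + CH p Y (fun ω => (D ω, b ω)) := by
    rw [← CH_chain hp Y D b]
    exact CH_congr hp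
      (fun ω ω' a c h => Prod.ext (Prod.ext_iff.mp h).1 (hD ω ω' a c (Prod.ext_iff.mp h).1))
      (fun ω ω' _ _ h => (Prod.ext_iff.mp (Prod.ext_iff.mp h).1).1)
      (fun _ _ _ _ h => h) (fun _ _ _ _ h => h)
  have e3 : CI3 p s Y (fun ω => (D ω, b ω)) =
      CH p Y (fun ω => (D ω, b ω)) - CH p Y (fun ω => (s ω, (D ω, b ω))) := by
    rw [CI3_symm hp]
    rfl
  linarith

/-- **The potential.** -/
theorem potj_eq {p : Ω → ℝ} (hp : ∀ ω, 0 ≤ p ω) (b : ℕ → Ω → β) (D : ℕ → Ω → δ) (s : ℕ → Ω → ς)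
    (Y : Ω → υ) (n : ℕ) (h1 : ∀ i < n, Det p (b (i + 1)) (fun ω => (b i ω, (D i ω, s i ω))))
    (h2 : ∀ i < n, Det p (fun ω => (b i ω, (D i ω, s i ω))) (b (i + 1)))
    (hD : ∀ i < n, Det p Y (D i)) :
    ∑ i ∈ range n, CI3 p (s i) Y (fun ω => (D i ω, b i ω)) =
      CH p Y (b 0) - CH p Y (b n) - ∑ i ∈ range n, CH p (D i) (b i) := by
  induction n with
  | zero => simp
  | succ n ih =>
    rw [Finset.sum_range_succ, Finset.sum_range_succ,
      ih (fun i hi => h1 i (by omega)) (fun i hi => h2 i (by omega)) (fun i hi => hD i (by omega))]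
    have := potj_step hp (b n) (b (n + 1)) (D n) (s n) Y (h1 n (by omega)) (h2 n (by omega))
      (hD n (by omega))
    linarith

/-- **Unsaturation is inherited by the contexts of the path.** `x i` is a function of
`(b i, Δ i, s i)` (the block of the normal coordinate). `Y` has at most `L 0` nats given `b 0` and
at least `L n - d` given `b n`; the block `Δ i` has at least `L i - L (i + 1) - e i` nats. -/
theorem potj_thm {p : Ω → ℝ} (hp : ∀ ω, 0 ≤ p ω) (b : ℕ → Ω → β) (D : ℕ → Ω → δ) (s : ℕ → Ω → ς)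
    (x : ℕ → Ω → ν) (Y : Ω → υ) (n : ℕ)
    (h1 : ∀ i < n, Det p (b (i + 1)) (fun ω => (b i ω, (D i ω, s i ω))))
    (h2 : ∀ i < n, Det p (fun ω => (b i ω, (D i ω, s i ω))) (b (i + 1)))
    (hD : ∀ i < n, Det p Y (D i))
    (hx : ∀ i < n, Det p (fun ω => (b i ω, (D i ω, s i ω))) (x i)) (L e : ℕ → ℝ) (d : ℝ)
    (h0 : CH p Y (b 0) ≤ L 0) (hn : L n - d ≤ CH p Y (b n))
    (hL : ∀ i < n, L i - L (i + 1) - e i ≤ CH p (D i) (b i)) :
    ∑ i ∈ range n, CI3 p (x i) Y (fun ω => (D i ω, b i ω)) ≤ d + ∑ i ∈ range n, e i := by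
  have e1 := potj_eq hp b D s Y n h1 h2 hD
  have e2 : ∑ i ∈ range n, CI3 p (x i) Y (fun ω => (D i ω, b i ω)) ≤
      ∑ i ∈ range n, CI3 p (s i) Y (fun ω => (D i ω, b i ω)) := by
    refine Finset.sum_le_sum fun i hi => ?_
    have hi := Finset.mem_range.mp hi
    refine CI3_mono hp fun ω ω' a c h => hx i hi ω ω' a c ?_
    simp only [Prod.mk.injEq] at h ⊢
    tauto
  have e3 : ∑ i ∈ range n, (L i - L (i + 1) - e i) ≤ ∑ i ∈ range n, CH p (D i) (b i) :=
    Finset.sum_le_sum fun i hi => hL i (Finset.mem_range.mp hi)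
  have e4 : ∑ i ∈ range n, (L i - L (i + 1) - e i) = L 0 - L n - ∑ i ∈ range n, e i := by
    rw [Finset.sum_sub_distrib, Finset.sum_range_sub']
  linarith

/-- One variable along a nested chain of contexts (K_JUMP 4 (ii)): the informations of the blocks
`E i` (functions of `b (i + 1)`) on `v` add up to at most `H (v | b 0)`. -/
theorem one_var {A B : Type} {p : Ω → ℝ} (hp : ∀ ω, 0 ≤ p ω) (v : Ω → A) (b : ℕ → Ω → β)
    (E : ℕ → Ω → B) (n : ℕ) (hb : ∀ i < n, Det p (b (i + 1)) (b i))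
    (hE : ∀ i < n, Det p (b (i + 1)) (E i)) :
    ∑ i ∈ range n, CI3 p (E i) v (b i) ≤ CH p v (b 0) - CH p v (b n) := by
  have e1 : ∀ i ∈ range n, CI3 p (E i) v (b i) ≤ CH p v (b i) - CH p v (b (i + 1)) := by
    intro i hi
    have hi := Finset.mem_range.mp hi
    rw [CI3_symm hp]
    unfold CI3
    have := CH_mono_cond hp (X := v) (W' := b (i + 1)) (W := fun ω => (E i ω, b i ω))
      (fun ω ω' a c h => Prod.ext (hE i hi ω ω' a c h) (hb i hi ω ω' a c h))
    linarith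
  refine (Finset.sum_le_sum e1).trans (le_of_eq ?_)
  exact Finset.sum_range_sub' (fun i => CH p v (b i)) n

/-- The same when the contexts are nested only up to small entropies `g i`. -/
theorem one_var_err {A B : Type} {p : Ω → ℝ} (hp : ∀ ω, 0 ≤ p ω) (v : Ω → A) (b : ℕ → Ω → β)
    (E : ℕ → Ω → B) (n : ℕ) :
    ∑ i ∈ range n, CI3 p (E i) v (b i) ≤ CH p v (b 0) - CH p v (b n) +
      ∑ i ∈ range n, CH p (fun ω => (E i ω, b i ω)) (b (i + 1)) := by
  have e1 : ∀ i ∈ range n, CI3 p (E i) v (b i) ≤ CH p v (b i) - CH p v (b (i + 1)) +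
      CH p (fun ω => (E i ω, b i ω)) (b (i + 1)) := by
    intro i _
    rw [CI3_symm hp]
    unfold CI3
    -- `H (v | b') ≤ H (v | E, b) + H (E, b | b')`
    have h1 := CH_le_add hp v (fun ω => (E i ω, b i ω)) (b (i + 1))
    have h2 := CH_mono_cond hp (X := v) (W' := fun ω => ((E i ω, b i ω), b (i + 1) ω))
      (W := fun ω => (E i ω, b i ω)) (fun ω ω' _ _ h => (Prod.ext_iff.mp h).1)
    linarith
  refine (Finset.sum_le_sum e1).trans (le_of_eq ?_)
  rw [Finset.sum_add_distrib, Finset.sum_range_sub' (fun i => CH p v (b i)) n]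

end Pool.KY
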