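import Pool.Agent.H43.K2.JBG

/-!
# Adapted paths in a two-parameter family of contexts: leaks and surprises

`S ω` is the class of the places which have the same *static* record as `ω` (at the stage which is
reached at `ω`), `Z ω` the class of the places which have the same context (static record and
velocity cells, at the stage reached at `ω`). The classes `Z ω` form a partition, the classes `S ω`
need not (the stage depends on `ω`). In one step the static record is refined from `S` to `S'`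
(the context `Z` becomes `Z ∩ S'`), then the velocity cells are refined. With
`R = E [log μ(S ω) - log μ(Z ω)]` (mean surprise of the velocity cells, given the static record)

`R' = R - leak + surprise`, `leak ≥ 0` (Gibbs), `surprise ≥ 0`,

hence the leaks of a path add up to at most `R` at the start plus the sum of the surprises.
-/

set_option autoImplicit false

namespace Pool.KY

open Finset Real
open Pool.Agent.H49.Ent Pool.Agent.H32.Dense Pool.STK Pool.KAF Pool.KAL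

variable {Ω : Type} [Fintype Ω]

lemma Pr_eq (p : Ω → ℝ) (E : Set Ω) [∀ ω, Decidable (ω ∈ E)] :
    Pr p E = ∑ ω, if ω ∈ E then p ω else 0 := by
  rw [CDF.Pr_eq]
  exact Finset.sum_congr rfl fun ω _ => by congr

lemma Pr_mono {p : Ω → ℝ} (hp : ∀ ω, 0 ≤ p ω) {A B : Set Ω}
    (h : ∀ ω, 0 < p ω → ω ∈ A → ω ∈ B) : Pr p A ≤ Pr p B := by
  classical
  rw [Pr_eq, Pr_eq]
  refine Finset.sum_le_sum fun ω _ => ?_
  rcases (hp ω).eq_or_lt with h0 | h0
  · rw [← h0, ite_self, ite_self]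
  · by_cases hA : ω ∈ A
    · rw [if_pos hA, if_pos (h ω h0 hA)]
    · rw [if_neg hA]
      split_ifs
      · exact h0.le
      · exact le_rfl

lemma Pr_nonneg {p : Ω → ℝ} (hp : ∀ ω, 0 ≤ p ω) (A : Set Ω) : 0 ≤ Pr p A := by
  classical
  rw [Pr_eq]
  refine Finset.sum_nonneg fun ω _ => ?_
  split_ifs
  · exact hp ω
  · exact le_rfl

lemma Pr_pos {p : Ω → ℝ} (hp : ∀ ω, 0 ≤ p ω) {A : Set Ω} {ω : Ω} (h0 : 0 < p ω) (h : ω ∈ A) :
    0 < Pr p A := by
  classical
  rw [Pr_eq]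
  have h1 := Finset.single_le_sum (f := fun ω => if ω ∈ A then p ω else 0)
    (fun ω' _ => by split_ifs; exacts [hp ω', le_rfl]) (Finset.mem_univ ω)
  simp only [h, if_true] at h1
  exact h0.trans_le h1

lemma Pr_le_one {p : Ω → ℝ} (hp : ∀ ω, 0 ≤ p ω) (h1 : ∑ ω, p ω = 1) (A : Set Ω) :
    Pr p A ≤ 1 := by
  classical
  rw [Pr_eq, ← h1]
  refine Finset.sum_le_sum fun ω _ => ?_
  split_ifs
  · exact le_rfl
  · exact hp ω

/-- **Gibbs inequality for adapted classes.** -/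
theorem gibbs {p : Ω → ℝ} (hp : ∀ ω, 0 ≤ p ω) (S S' Z : Ω → Set Ω)
    (hZ : ∀ ω, 0 < p ω → ω ∈ Z ω) (hS' : ∀ ω, 0 < p ω → ω ∈ S' ω)
    (hcl : ∀ ω ω', 0 < p ω → 0 < p ω' → ω' ∈ Z ω → Z ω' = Z ω ∧ S ω' = S ω)
    (hsub : ∀ ω, 0 < p ω → S' ω ⊆ S ω)
    (hdj : ∀ ω ω', 0 < p ω → 0 < p ω' → ω' ∈ Z ω → S' ω' = S' ω ∨ Disjoint (S' ω') (S' ω)) :
    0 ≤ Ex p (fun ω => Real.log (Pr p (Z ω ∩ S' ω)) - Real.log (Pr p (Z ω)) -
      Real.log (Pr p (S' ω)) + Real.log (Pr p (S ω))) := by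
  classical
  set x : Ω → ℝ := fun ω =>
    Pr p (S' ω) * Pr p (Z ω) / (Pr p (S ω) * Pr p (Z ω ∩ S' ω)) with hx
  have hposZ : ∀ ω, 0 < p ω → 0 < Pr p (Z ω) := fun ω h => Pr_pos hp h (hZ ω h)
  have hposS' : ∀ ω, 0 < p ω → 0 < Pr p (S' ω) := fun ω h => Pr_pos hp h (hS' ω h)
  have hposS : ∀ ω, 0 < p ω → 0 < Pr p (S ω) := fun ω h => Pr_pos hp h (hsub ω h (hS' ω h))
  have hposD : ∀ ω, 0 < p ω → 0 < Pr p (Z ω ∩ S' ω) := fun ω h =>
    Pr_pos hp h ⟨hZ ω h, hS' ω h⟩
  -- the main estimate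
  have main : Ex p x ≤ ∑ ω, p ω := by
    -- inner estimate
    have inner : ∀ ω', 0 < p ω' →
        ∑ ω, (if ω ∈ Z ω' then p ω * (Pr p (S' ω) / Pr p (Z ω ∩ S' ω)) else 0) ≤ Pr p (S ω') := by
      intro ω' hω'
      have e1 : ∀ ω, (if ω ∈ Z ω' then p ω * (Pr p (S' ω) / Pr p (Z ω ∩ S' ω)) else 0) =
          ∑ v, if ω ∈ Z ω' ∧ v ∈ S' ω then p v * (p ω / Pr p (Z ω ∩ S' ω)) else 0 := by
        intro ω
        by_cases h : ω ∈ Z ω'
        · rw [if_pos h, Pr_eq p (S' ω), Finset.sum_div, Finset.mul_sum]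
          refine Finset.sum_congr rfl fun v _ => ?_
          by_cases hv : v ∈ S' ω
          · rw [if_pos hv, if_pos ⟨h, hv⟩]
            ring
          · rw [if_neg hv, if_neg (fun hh => hv hh.2)]
            simp
        · rw [if_neg h]
          symm
          refine Finset.sum_eq_zero fun v _ => ?_
          rw [if_neg (fun hh => h hh.1)]
      rw [Finset.sum_congr rfl fun ω _ => e1 ω, Finset.sum_comm, Pr_eq p (S ω')]
      refine Finset.sum_le_sum fun v _ => ?_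
      rcases (hp v).eq_or_lt with h0 | h0
      · rw [← h0]
        simp
      -- the places whose class contains `v`
      by_cases hex : ∃ ω₀, 0 < p ω₀ ∧ ω₀ ∈ Z ω' ∧ v ∈ S' ω₀
      · obtain ⟨ω₀, h1, h2, h3⟩ := hex
        have hc := hcl ω' ω₀ hω' h1 h2
        have hvS : v ∈ S ω' := by
          rw [← hc.2]
          exact hsub ω₀ h1 h3
        rw [if_pos hvS]
        have e2 : ∀ ω, (if ω ∈ Z ω' ∧ v ∈ S' ω then p v * (p ω / Pr p (Z ω ∩ S' ω)) else 0) ≤
            p v / Pr p (Z ω₀ ∩ S' ω₀) * (if ω ∈ Z ω₀ ∩ S' ω₀ then p ω else 0) := by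
          intro ω
          rcases (hp ω).eq_or_lt with h00 | h00
          · rw [← h00]
            simp
          by_cases h : ω ∈ Z ω' ∧ v ∈ S' ω
          · rw [if_pos h]
            have hcω := hcl ω' ω hω' h00 h.1
            have hωZ : ω ∈ Z ω₀ := by rw [hc.1]; exact h.1
            have hSe : S' ω = S' ω₀ := by
              rcases hdj ω₀ ω h1 h00 hωZ with h4 | h4
              · exact h4
              · exact absurd h3 (Set.disjoint_left.mp h4 h.2)
            have hZe : Z ω = Z ω₀ := by rw [hcω.1, hc.1]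
            have hmem : ω ∈ Z ω₀ ∩ S' ω₀ := ⟨hωZ, hSe ▸ hS' ω h00⟩
            rw [if_pos hmem, hZe, hSe]
            apply le_of_eq
            ring
          · rw [if_neg h]
            refine mul_nonneg (div_nonneg (hp v) (Pr_nonneg hp _)) ?_
            split_ifs
            · exact hp ω
            · exact le_rfl
        refine (Finset.sum_le_sum fun ω _ => e2 ω).trans ?_
        rw [← Finset.mul_sum, ← Pr_eq, div_mul_cancel₀ _ (hposD ω₀ h1).ne']
      · have e3 : ∀ ω ∈ (Finset.univ : Finset Ω),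
            (if ω ∈ Z ω' ∧ v ∈ S' ω then p v * (p ω / Pr p (Z ω ∩ S' ω)) else 0) = 0 := by
          intro ω _
          split_ifs with h
          · rcases (hp ω).eq_or_lt with h00 | h00
            · rw [← h00]
              simp
            · exact absurd ⟨ω, h00, h.1, h.2⟩ hex
          · rfl
        rw [Finset.sum_eq_zero e3]
        split_ifs
        · exact hp v
        · exact le_rfl
    -- spreading over the class
    have e4 : Ex p x = ∑ ω', ∑ ω, (if ω ∈ Z ω' then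
        p ω' / Pr p (S ω') * (p ω * (Pr p (S' ω) / Pr p (Z ω ∩ S' ω))) else 0) := by
      rw [Finset.sum_comm]
      unfold Ex
      refine Finset.sum_congr rfl fun ω _ => ?_
      rcases (hp ω).eq_or_lt with h0 | h0
      · rw [← h0]
        simp
      have e5 : ∀ ω', (if ω ∈ Z ω' then
          p ω' / Pr p (S ω') * (p ω * (Pr p (S' ω) / Pr p (Z ω ∩ S' ω))) else 0) =
          (if ω' ∈ Z ω then p ω' else 0) *
            (p ω * (Pr p (S' ω) / Pr p (Z ω ∩ S' ω)) / Pr p (S ω)) := by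
        intro ω'
        rcases (hp ω').eq_or_lt with h00 | h00
        · rw [← h00]
          simp
        by_cases h : ω ∈ Z ω'
        · have hc := hcl ω' ω h00 h0 h
          have h' : ω' ∈ Z ω := by rw [hc.1]; exact hZ ω' h00
          rw [if_pos h, if_pos h', hc.2]
          ring
        · have h' : ω' ∉ Z ω := by
            intro h'
            have hc := hcl ω ω' h0 h00 h'
            exact h (by rw [hc.1]; exact hZ ω h0)
          rw [if_neg h, if_neg h', zero_mul]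
      rw [Finset.sum_congr rfl fun ω' _ => e5 ω', ← Finset.sum_mul, ← Pr_eq, hx]
      have h1 := (hposS ω h0).ne'
      have h2 := (hposD ω h0).ne'
      field_simp
    rw [e4]
    refine Finset.sum_le_sum fun ω' _ => ?_
    rcases (hp ω').eq_or_lt with h0 | h0
    · rw [← h0]
      simp
    have e6 : ∑ ω, (if ω ∈ Z ω' then
        p ω' / Pr p (S ω') * (p ω * (Pr p (S' ω) / Pr p (Z ω ∩ S' ω))) else 0) =
        p ω' / Pr p (S ω') *
          ∑ ω, (if ω ∈ Z ω' then p ω * (Pr p (S' ω) / Pr p (Z ω ∩ S' ω)) else 0) := by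
      rw [Finset.mul_sum]
      refine Finset.sum_congr rfl fun ω _ => ?_
      rw [mul_ite, mul_zero]
    rw [e6]
    calc p ω' / Pr p (S ω') * _ ≤ p ω' / Pr p (S ω') * Pr p (S ω') :=
          mul_le_mul_of_nonneg_left (inner ω' h0) (div_nonneg (hp ω') (Pr_nonneg hp _))
      _ = p ω' := div_mul_cancel₀ _ (hposS ω' h0).ne'
  have hlog : Ex p (fun ω => 1 - x ω) ≤ Ex p (fun ω => Real.log (Pr p (Z ω ∩ S' ω)) -
      Real.log (Pr p (Z ω)) - Real.log (Pr p (S' ω)) + Real.log (Pr p (S ω))) := by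
    refine Ex_mono hp fun ω h => ?_
    have h1 := hposZ ω h
    have h2 := hposS' ω h
    have h3 := hposS ω h
    have h4 := hposD ω h
    have hxp : 0 < x ω := by positivity
    have h5 := Real.log_le_sub_one_of_pos hxp
    have h6 : Real.log (x ω) = Real.log (Pr p (S' ω)) + Real.log (Pr p (Z ω)) -
        (Real.log (Pr p (S ω)) + Real.log (Pr p (Z ω ∩ S' ω))) := by
      rw [hx]
      simp only
      rw [Real.log_div (by positivity) (by positivity), Real.log_mul h2.ne' h1.ne',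
        Real.log_mul h3.ne' h4.ne']
    linarith
  have hEx : Ex p (fun ω => 1 - x ω) = ∑ ω, p ω - Ex p x := by
    unfold Ex
    rw [← Finset.sum_sub_distrib]
    exact Finset.sum_congr rfl fun ω _ => by ring
  rw [hEx] at hlog
  linarith

/-- A path of adapted classes. -/
structure Pth (p : Ω → ℝ) (n : ℕ) (S Z : ℕ → Ω → Set Ω) : Prop where
  mem : ∀ k ≤ n, ∀ ω, 0 < p ω → ω ∈ Z k ω
  sub : ∀ k ≤ n, ∀ ω, 0 < p ω → Z k ω ⊆ S k ω
  cls : ∀ k ≤ n, ∀ ω ω', 0 < p ω → 0 < p ω' → ω' ∈ Z k ω → Z k ω' = Z k ω ∧ S k ω' = S k ω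
  nst : ∀ k < n, ∀ ω, 0 < p ω → S (k + 1) ω ⊆ S k ω
  dsj : ∀ k < n, ∀ ω ω', 0 < p ω → 0 < p ω' → ω' ∈ Z k ω →
    S (k + 1) ω' = S (k + 1) ω ∨ Disjoint (S (k + 1) ω') (S (k + 1) ω)
  nxt : ∀ k < n, ∀ ω, 0 < p ω → Z (k + 1) ω ⊆ Z k ω

/-- The mean surprise of the velocity cells, given the static record. -/
noncomputable def RR (p : Ω → ℝ) (S Z : Ω → Set Ω) : ℝ :=
  Ex p fun ω => Real.log (Pr p (S ω)) - Real.log (Pr p (Z ω))

/-- The surprise of one step: the static record is already refined. -/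
noncomputable def Sur (p : Ω → ℝ) (S' Z Z' : Ω → Set Ω) : ℝ :=
  Ex p fun ω => Real.log (Pr p (Z ω ∩ S' ω)) - Real.log (Pr p (Z' ω))

/-- The log-likelihood ratio of the class `S'` given the context `Z`, against its likelihood given
the static record `S`. -/
noncomputable def lk (p : Ω → ℝ) (S S' Z : Ω → Set Ω) (ω : Ω) : ℝ :=
  Real.log (Pr p (Z ω ∩ S' ω)) - Real.log (Pr p (Z ω)) -
    Real.log (Pr p (S' ω)) + Real.log (Pr p (S ω))

lemma RR_nonneg {p : Ω → ℝ} (hp : ∀ ω, 0 ≤ p ω) {S Z : Ω → Set Ω}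
    (hZ : ∀ ω, 0 < p ω → ω ∈ Z ω) (hsub : ∀ ω, 0 < p ω → Z ω ⊆ S ω) : 0 ≤ RR p S Z := by
  refine Ex_nonneg hp fun ω h => ?_
  have h1 : Pr p (Z ω) ≤ Pr p (S ω) := Pr_mono hp fun ω' _ h' => hsub ω h h'
  have h2 := Real.log_le_log (Pr_pos hp h (hZ ω h)) h1
  linarith

lemma RR_step (p : Ω → ℝ) (S S' Z Z' : Ω → Set Ω) :
    RR p S' Z' = RR p S Z - Ex p (lk p S S' Z) + Sur p S' Z Z' := by
  unfold RR Sur Ex lk
  rw [← Finset.sum_sub_distrib, ← Finset.sum_add_distrib]
  refine Finset.sum_congr rfl fun ω _ => ?_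
  ring

/-- **Leaks and surprises.** -/
theorem leaks_eq {p : Ω → ℝ} {n : ℕ} (S Z : ℕ → Ω → Set Ω) :
    ∑ k ∈ range n, Ex p (lk p (S k) (S (k + 1)) (Z k)) =
      RR p (S 0) (Z 0) - RR p (S n) (Z n) +
        ∑ k ∈ range n, Sur p (S (k + 1)) (Z k) (Z (k + 1)) := by
  induction n with
  | zero => simp
  | succ n ih =>
    rw [Finset.sum_range_succ, Finset.sum_range_succ, ih,
      RR_step p (S n) (S (n + 1)) (Z n) (Z (n + 1))]
    ring

open Classical in
/-- The part of the leak on an adapted event is nonnegative. All hypotheses concern the event. -/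
theorem leak_on_nonneg {p : Ω → ℝ} (hp : ∀ ω, 0 ≤ p ω) {S S' Z : Ω → Set Ω} {T : Set Ω}
    (hZ : ∀ ω, 0 < p ω → ω ∈ T → ω ∈ Z ω)
    (hS' : ∀ ω, 0 < p ω → ω ∈ T → ω ∈ S' ω)
    (hcl : ∀ ω ω', 0 < p ω → 0 < p ω' → ω ∈ T → ω' ∈ Z ω → Z ω' = Z ω ∧ S ω' = S ω)
    (hsub : ∀ ω, 0 < p ω → ω ∈ T → S' ω ⊆ S ω)
    (hdj : ∀ ω ω', 0 < p ω → 0 < p ω' → ω ∈ T → ω' ∈ Z ω →
      S' ω' = S' ω ∨ Disjoint (S' ω') (S' ω))
    (hT : ∀ ω ω', 0 < p ω → 0 < p ω' → ω ∈ T → ω' ∈ Z ω → ω' ∈ T) :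
    0 ≤ Ex p (fun ω => if ω ∈ T then lk p S S' Z ω else 0) := by
  have h := gibbs hp (fun ω => if ω ∈ T then S ω else Set.univ)
    (fun ω => if ω ∈ T then S' ω else Set.univ) (fun ω => if ω ∈ T then Z ω else Tᶜ)
    (fun ω h => by
      split_ifs with h1
      · exact hZ ω h h1
      · exact h1)
    (fun ω h => by
      split_ifs with h1
      · exact hS' ω h h1
      · exact Set.mem_univ _)
    (fun ω ω' h h' hω => by
      by_cases h1 : ω ∈ T
      · simp only [h1, if_true] at hω ⊢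
        have h2 := hT ω ω' h h' h1 hω
        simp only [h2, if_true]
        exact hcl ω ω' h h' h1 hω
      · simp only [h1, if_false] at hω ⊢
        have h2 : ω' ∉ T := hω
        simp only [h2, if_false]
        exact ⟨trivial, trivial⟩)
    (fun ω h => by
      split_ifs with h1
      · exact hsub ω h h1
      · exact subset_rfl)
    (fun ω ω' h h' hω => by
      by_cases h1 : ω ∈ T
      · simp only [h1, if_true] at hω ⊢
        have h2 := hT ω ω' h h' h1 hω
        simp only [h2, if_true]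
        exact hdj ω ω' h h' h1 hω
      · simp only [h1, if_false] at hω ⊢
        have h2 : ω' ∉ T := hω
        simp only [h2, if_false]
        exact Or.inl trivial)
  refine h.trans (Ex_mono hp fun ω h => ?_)
  by_cases h1 : ω ∈ T
  · simp only [h1, if_true]
    exact le_rfl
  · simp only [h1, if_false, Set.inter_univ]
    linarith

open Classical in
/-- The leak of a coarser class `Y ⊇ S'`, on an adapted event, is at most the leak of `S'`. -/
theorem leak_on_le {p : Ω → ℝ} (hp : ∀ ω, 0 ≤ p ω) {S S' Z Y : Ω → Set Ω} {T : Set Ω}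
    (hZ : ∀ ω, 0 < p ω → ω ∈ Z ω) (hZS : ∀ ω, 0 < p ω → Z ω ⊆ S ω)
    (hS' : ∀ ω, 0 < p ω → ω ∈ S' ω)
    (hcl : ∀ ω ω', 0 < p ω → 0 < p ω' → ω' ∈ Z ω → Z ω' = Z ω ∧ S ω' = S ω)
    (hsub : ∀ ω, 0 < p ω → S' ω ⊆ S ω)
    (hdj : ∀ ω ω', 0 < p ω → 0 < p ω' → ω' ∈ Z ω → S' ω' = S' ω ∨ Disjoint (S' ω') (S' ω))
    (hT : ∀ ω ω', 0 < p ω → 0 < p ω' → ω' ∈ Z ω → ω ∈ T → ω' ∈ T)
    (hY : ∀ ω, 0 < p ω → ω ∈ T → S' ω ⊆ Y ω)
    (hYd : ∀ ω ω', 0 < p ω → 0 < p ω' → ω ∈ T → ω' ∈ Z ω →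
      Y ω' = Y ω ∨ Disjoint (Y ω') (Y ω)) :
    Ex p (fun ω => if ω ∈ T then lk p S Y Z ω else 0) ≤ Ex p (lk p S S' Z) := by
  have hT' : ∀ ω ω', 0 < p ω → 0 < p ω' → ω' ∈ Z ω → (ω' ∈ T ↔ ω ∈ T) := by
    intro ω ω' h h' hω
    refine ⟨fun hh => ?_, hT ω ω' h h' hω⟩
    refine hT ω' ω h' h ?_ hh
    rw [(hcl ω ω' h h' hω).1]
    exact hZ ω h
  -- off `T`
  have h1 : 0 ≤ Ex p (fun ω => if ω ∈ T then 0 else lk p S S' Z ω) := by
    refine (leak_on_nonneg (T := Tᶜ) hp (fun ω h _ => hZ ω h)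
      (fun ω h _ => hS' ω h) (fun ω ω' h h' _ hω => hcl ω ω' h h' hω)
      (fun ω h _ => hsub ω h) (fun ω ω' h h' _ hω => hdj ω ω' h h' hω)
      (fun ω ω' h h' hh hω h2 => hh ((hT' ω ω' h h' hω).mp h2))).trans
      (Ex_mono hp fun ω _ => ?_)
    by_cases h4 : ω ∈ T
    · have h5 : ω ∉ Tᶜ := fun hh => hh h4
      rw [if_neg h5, if_pos h4]
    · have h5 : ω ∈ Tᶜ := h4
      rw [if_pos h5, if_neg h4]
  -- on `T`, from `Y` to `S'`
  have h2 := gibbs hp (fun ω => if ω ∈ T then Y ω else S ω)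
    (fun ω => if ω ∈ T then S' ω else S ω) (fun ω => if ω ∈ T then Z ω ∩ Y ω else Z ω)
    (fun ω h => by
      split_ifs with h3
      · exact ⟨hZ ω h, hY ω h h3 (hS' ω h)⟩
      · exact hZ ω h)
    (fun ω h => by
      split_ifs with h3
      · exact hS' ω h
      · exact hZS ω h (hZ ω h))
    (fun ω ω' h h' hω => by
      by_cases h3 : ω ∈ T
      · simp only [h3, if_true] at hω ⊢
        have h4 : ω' ∈ T := (hT' ω ω' h h' hω.1).mpr h3
        simp only [h4, if_true]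
        have h5 := hcl ω ω' h h' hω.1
        have h6 : Y ω' = Y ω := by
          rcases hYd ω ω' h h' h3 hω.1 with h7 | h7
          · exact h7
          · exact absurd hω.2 (Set.disjoint_left.mp h7 (hY ω' h' h4 (hS' ω' h')))
        exact ⟨by rw [h5.1, h6], h6⟩
      · simp only [h3, if_false] at hω ⊢
        have h4 : ω' ∉ T := fun hh => h3 ((hT' ω ω' h h' hω).mp hh)
        simp only [h4, if_false]
        exact hcl ω ω' h h' hω)
    (fun ω h => by
      by_cases h3 : ω ∈ T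
      · simp only [h3, if_true]
        exact hY ω h h3
      · simp only [h3, if_false]
        exact subset_rfl)
    (fun ω ω' h h' hω => by
      by_cases h3 : ω ∈ T
      · simp only [h3, if_true] at hω ⊢
        have h4 : ω' ∈ T := (hT' ω ω' h h' hω.1).mpr h3
        simp only [h4, if_true]
        exact hdj ω ω' h h' hω.1
      · simp only [h3, if_false] at hω ⊢
        have h4 : ω' ∉ T := fun hh => h3 ((hT' ω ω' h h' hω).mp hh)
        simp only [h4, if_false]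
        exact Or.inl (hcl ω ω' h h' hω).2)
  have h3 : Ex p (lk p S S' Z) - Ex p (fun ω => if ω ∈ T then lk p S Y Z ω else 0) =
      Ex p (fun ω => if ω ∈ T then 0 else lk p S S' Z ω) +
      Ex p (fun ω => if ω ∈ T then lk p S S' Z ω - lk p S Y Z ω else 0) := by
    unfold Ex
    rw [← Finset.sum_sub_distrib, ← Finset.sum_add_distrib]
    refine Finset.sum_congr rfl fun ω _ => ?_
    by_cases h4 : ω ∈ T
    · simp only [h4, if_true]
      ring
    · simp only [h4, if_false]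
      ring
  have h4 : 0 ≤ Ex p (fun ω => if ω ∈ T then lk p S S' Z ω - lk p S Y Z ω else 0) := by
    refine h2.trans (Ex_mono hp fun ω h => ?_)
    by_cases h5 : ω ∈ T
    · simp only [h5, if_true]
      have e1 : Z ω ∩ Y ω ∩ S' ω = Z ω ∩ S' ω := by
        rw [Set.inter_assoc, Set.inter_eq_right.mpr (hY ω h h5)]
      rw [e1]
      unfold lk
      linarith
    · simp only [h5, if_false]
      have e1 : Z ω ∩ S ω = Z ω := Set.inter_eq_left.mpr (hZS ω h)
      rw [e1]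
      linarith
  linarith

open Classical in
/-- **One path.** `T k` is an adapted event, `Y k ω` a static class which is known after the next
static refinement. -/
theorem pth_thm {p : Ω → ℝ} (hp : ∀ ω, 0 ≤ p ω) {n : ℕ} {S Z : ℕ → Ω → Set Ω}
    (hP : Pth p n S Z) (Y : ℕ → Ω → Set Ω) (T : ℕ → Set Ω)
    (hT : ∀ k < n, ∀ ω ω', 0 < p ω → 0 < p ω' → ω' ∈ Z k ω → ω ∈ T k → ω' ∈ T k)
    (hY : ∀ k < n, ∀ ω, 0 < p ω → ω ∈ T k → S (k + 1) ω ⊆ Y k ω)
    (hYd : ∀ k < n, ∀ ω ω', 0 < p ω → 0 < p ω' → ω ∈ T k → ω' ∈ Z k ω →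
      Y k ω' = Y k ω ∨ Disjoint (Y k ω') (Y k ω)) :
    ∑ k ∈ range n, Ex p (fun ω => if ω ∈ T k then lk p (S k) (Y k) (Z k) ω else 0) ≤
      RR p (S 0) (Z 0) + ∑ k ∈ range n, Sur p (S (k + 1)) (Z k) (Z (k + 1)) := by
  have h1 : ∑ k ∈ range n, Ex p (fun ω => if ω ∈ T k then lk p (S k) (Y k) (Z k) ω else 0) ≤
      ∑ k ∈ range n, Ex p (lk p (S k) (S (k + 1)) (Z k)) := by
    refine Finset.sum_le_sum fun k hk => ?_
    have hk := Finset.mem_range.mp hk
    exact leak_on_le hp (hP.mem k hk.le) (hP.sub k hk.le)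
      (fun ω h => hP.sub (k + 1) hk ω h (hP.mem (k + 1) hk ω h)) (hP.cls k hk.le)
      (hP.nst k hk) (hP.dsj k hk) (hT k hk) (hY k hk) (hYd k hk)
  have h2 := RR_nonneg hp (hP.mem n le_rfl) (hP.sub n le_rfl)
  rw [leaks_eq] at h1
  linarith

end Pool.KY
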